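import Mathlib

/-!
# `x ^ d + c`: generalities
-/

set_option autoImplicit false

namespace Pool.Agent.H422.UC

section gen

variable {K : Type*} {f : K → K}

/-- preperiodic points -/
def Pre (f : K → K) (x : K) : Prop := ∃ m n : ℕ, m < n ∧ f^[m] x = f^[n] x

/-- periodic points -/
def Per (f : K → K) (x : K) : Prop := ∃ n : ℕ, 0 < n ∧ f^[n] x = x

lemma Pre.step {x : K} (h : Pre f x) : Pre f (f x) := by
  obtain ⟨m, n, hmn, he⟩ := h
  refine ⟨m, n, hmn, ?_⟩
  rw [← Function.iterate_succ_apply, ← Function.iterate_succ_apply, Function.iterate_succ_apply' f m,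
    Function.iterate_succ_apply' f n, he]

lemma Pre.iter {x : K} (h : Pre f x) (k : ℕ) : Pre f (f^[k] x) := by
  induction k with
  | zero => exact h
  | succ k ih => rw [Function.iterate_succ_apply']; exact ih.step

lemma Pre.of_step {x : K} (h : Pre f (f x)) : Pre f x := by
  obtain ⟨m, n, hmn, he⟩ := h
  refine ⟨m + 1, n + 1, by omega, ?_⟩
  rw [Function.iterate_succ_apply, Function.iterate_succ_apply, he]

lemma Per.pre {x : K} (h : Per f x) : Pre f x := by
  obtain ⟨n, hn, he⟩ := h
  exact ⟨0, n, hn, he.symm⟩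

lemma Per.step {x : K} (h : Per f x) : Per f (f x) := by
  obtain ⟨n, hn, he⟩ := h
  refine ⟨n, hn, ?_⟩
  rw [← Function.iterate_succ_apply, Function.iterate_succ_apply', he]

lemma Per.iter {x : K} (h : Per f x) (k : ℕ) : Per f (f^[k] x) := by
  induction k with
  | zero => exact h
  | succ k ih => rw [Function.iterate_succ_apply']; exact ih.step

lemma iter_mul {u : K} {n : ℕ} (h : f^[n] u = u) (k : ℕ) : f^[n * k] u = u := by
  induction k with
  | zero => rfl
  | succ k ih => rw [Nat.mul_succ, Function.iterate_add_apply, h, ih]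

/-- a common period -/
lemma common_period {u w : K} (hu : Per f u) (hw : Per f w) :
    ∃ n : ℕ, 0 < n ∧ f^[n] u = u ∧ f^[n] w = w := by
  obtain ⟨m, hm, h1⟩ := hu
  obtain ⟨n, hn, h2⟩ := hw
  exact ⟨m * n, Nat.mul_pos hm hn, iter_mul h1 n, by rw [Nat.mul_comm]; exact iter_mul h2 m⟩

/-- iterates are injective on periodic points -/
lemma per_inj {u w : K} (hu : Per f u) (hw : Per f w) {k : ℕ} (h : f^[k] u = f^[k] w) :
    u = w := by
  obtain ⟨n, hn, h1, h2⟩ := common_period hu hw
  have h3 : f^[n * (k + 1) - k] (f^[k] u) = f^[n * (k + 1) - k] (f^[k] w) := by rw [h]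
  have hle : k ≤ n * (k + 1) := by nlinarith
  rw [← Function.iterate_add_apply, ← Function.iterate_add_apply, Nat.sub_add_cancel hle,
    iter_mul h1, iter_mul h2] at h3
  exact h3

/-- preperiodic points run into periodic points -/
lemma Pre.exists_per {x : K} (h : Pre f x) : ∃ k, Per f (f^[k] x) := by
  obtain ⟨m, n, hmn, he⟩ := h
  refine ⟨m, n - m, by omega, ?_⟩
  rw [← Function.iterate_add_apply, Nat.sub_add_cancel hmn.le, he]

/-- a common tail and period -/
lemma common_pre {u w : K} (hu : Pre f u) (hw : Pre f w) :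
    ∃ k p : ℕ, 0 < p ∧ f^[k + p] u = f^[k] u ∧ f^[k + p] w = f^[k] w := by
  obtain ⟨k1, h1⟩ := hu.exists_per
  obtain ⟨k2, h2⟩ := hw.exists_per
  obtain ⟨p, hp, e1, e2⟩ := common_period (h1.iter k2) (h2.iter k1)
  refine ⟨k1 + k2, p, hp, ?_, ?_⟩
  · rw [Nat.add_comm _ p, Function.iterate_add_apply, Nat.add_comm k1 k2,
      Function.iterate_add_apply f k2 k1, e1]
  · rw [Nat.add_comm _ p, Function.iterate_add_apply, Function.iterate_add_apply f k1 k2, e2]

/-- never merging -/
def NM (f : K → K) (u w : K) : Prop := ∀ n : ℕ, f^[n] u ≠ f^[n] w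

lemma NM.step {u w : K} (h : NM f u w) : NM f (f u) (f w) := by
  intro n
  have := h (n + 1)
  rwa [Function.iterate_succ_apply, Function.iterate_succ_apply] at this

lemma NM.ne {u w : K} (h : NM f u w) : u ≠ w := h 0

lemma per_NM {u w : K} (hu : Per f u) (hw : Per f w) (hne : u ≠ w) : NM f u w :=
  fun _ h => hne (per_inj hu hw h)

end gen

end Pool.Agent.H422.UC
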