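import Mathlib
import Pool.Agent.H422.UC.Basic

/-!
# `x ^ d + c`: one nonarchimedean place
-/

set_option autoImplicit false

open Polynomial

namespace Pool.Agent.H422.UC

/-- the map -/
def FF {K : Type*} [Field K] (d : ℕ) (c : K) : K → K := fun x => x ^ d + c

section

variable {K : Type*} [Field K] {Γ : Type*} [LinearOrderedCommGroupWithZero Γ] (v : Valuation K Γ)
  {d : ℕ} {c : K}

lemma FF_sub (x y : K) : FF d c x - FF d c y = x ^ d - y ^ d := by simp [FF]

/-- escape region -/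
lemma escape_step (hd : 2 ≤ d) {x : K} (h1 : 1 < v x) (h2 : v c < v x ^ d) :
    v x < v (FF d c x) ∧ v (FF d c x) = v x ^ d := by
  have h3 : v (FF d c x) = v x ^ d := by
    rw [FF, Valuation.map_add_eq_of_lt_left, map_pow]
    rw [map_pow]; exact h2
  refine ⟨?_, h3⟩
  rw [h3]
  calc v x = v x ^ 1 := (pow_one _).symm
    _ < v x ^ d := pow_lt_pow_right₀ h1 (by omega)

lemma not_escape (hd : 2 ≤ d) {x : K} (hx : Pre (FF d c) x) : ¬ (1 < v x ∧ v c < v x ^ d) := by
  rintro ⟨h1, h2⟩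
  have key : ∀ n : ℕ, (1 < v ((FF d c)^[n] x) ∧ v c < v ((FF d c)^[n] x) ^ d) := by
    intro n
    induction n with
    | zero => exact ⟨h1, h2⟩
    | succ n ih =>
      obtain ⟨i1, i2⟩ := ih
      obtain ⟨j1, j2⟩ := escape_step v hd i1 i2
      rw [Function.iterate_succ_apply']
      refine ⟨i1.trans j1, ?_⟩
      calc v c < v ((FF d c)^[n] x) ^ d := i2
        _ = v (FF d c ((FF d c)^[n] x)) := j2.symm
        _ = v (FF d c ((FF d c)^[n] x)) ^ 1 := (pow_one _).symm
        _ ≤ _ := pow_le_pow_right₀ (i1.trans j1).le (by omega)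
  have mono : StrictMono (fun n : ℕ => v ((FF d c)^[n] x)) := by
    apply strictMono_nat_of_lt_succ
    intro n
    rw [Function.iterate_succ_apply']
    exact (escape_step v hd (key n).1 (key n).2).1
  obtain ⟨m, n, hmn, he⟩ := hx
  have := mono hmn
  simp only [he] at this
  exact lt_irrefl _ this

/-- good places -/
lemma v_le_one (hd : 2 ≤ d) (hc : v c ≤ 1) {x : K} (hx : Pre (FF d c) x) : v x ≤ 1 := by
  by_contra h
  rw [not_le] at h
  apply not_escape v hd hx
  exact ⟨h, lt_of_le_of_lt hc (one_lt_pow₀ h (by omega))⟩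

/-- bad places -/
lemma v_pow_eq (hd : 2 ≤ d) (hc : 1 < v c) {x : K} (hx : Pre (FF d c) x) : v x ^ d = v c := by
  rcases lt_trichotomy (v x ^ d) (v c) with h | h | h
  · exfalso
    have h1 : v (FF d c x) = v c := by
      rw [FF, Valuation.map_add_eq_of_lt_right]
      rw [map_pow]; exact h
    apply not_escape v hd hx.step
    rw [h1]
    refine ⟨hc, ?_⟩
    calc v c = v c ^ 1 := (pow_one _).symm
      _ < v c ^ d := pow_lt_pow_right₀ hc (by omega)
  · exact h
  · exfalso
    apply not_escape v hd hx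
    refine ⟨?_, h⟩
    by_contra h1
    rw [not_lt] at h1
    exact absurd (hc.trans h) (not_lt.mpr (pow_le_one' h1 d))

lemma v_eq (hd : 2 ≤ d) (hc : 1 < v c) {x y : K} (hx : Pre (FF d c) x) (hy : Pre (FF d c) y) :
    v x = v y := by
  have h1 := v_pow_eq v hd hc hx
  have h2 := v_pow_eq v hd hc hy
  rw [← h2] at h1
  exact (pow_left_inj₀ zero_le zero_le (by omega)).mp h1

lemma one_lt_v (hd : 2 ≤ d) (hc : 1 < v c) {x : K} (hx : Pre (FF d c) x) : 1 < v x := by
  by_contra h1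
  rw [not_lt] at h1
  have := v_pow_eq v hd hc hx
  rw [← this] at hc
  exact absurd hc (not_lt.mpr (pow_le_one' h1 d))

variable {ζ₀ : K} (hζ : IsPrimitiveRoot ζ₀ d)

lemma root_v (hd : 2 ≤ d) {ζ : K} (h : ζ ^ d = 1) : v ζ = 1 := by
  have h1 : v ζ ^ d = 1 := by rw [← map_pow, h, map_one]
  exact (pow_eq_one_iff_of_nonneg zero_le (by omega)).mp h1

include hζ in
lemma prod_eq (hd : 2 ≤ d) (x y : K) :
    v (x ^ d - y ^ d) = ∏ ζ ∈ nthRootsFinset d (1 : K), v (x - ζ * y) := by
  rw [hζ.pow_sub_pow_eq_prod_sub_mul x y (by omega), map_prod]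

lemma mem_roots' (hd : 2 ≤ d) {ζ : K} : ζ ∈ nthRootsFinset d (1 : K) ↔ ζ ^ d = 1 :=
  mem_nthRootsFinset (by omega) _

lemma pre_root {ζ y : K} (h : ζ ^ d = 1) (hy : Pre (FF d c) y) : Pre (FF d c) (ζ * y) := by
  apply Pre.of_step
  have : FF d c (ζ * y) = FF d c y := by simp only [FF]; rw [mul_pow, h, one_mul]
  rw [this]
  exact hy.step

/-- products of numbers `≤ 1` -/
lemma all_eq_one {ι : Type*} [DecidableEq ι] (s : Finset ι) (g : ι → Γ) (h : ∀ i ∈ s, g i ≤ 1)
    (hp : ∏ i ∈ s, g i = 1) : ∀ i ∈ s, g i = 1 := by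
  intro i hi
  rw [← Finset.mul_prod_erase s g hi] at hp
  have h2 : ∏ j ∈ s.erase i, g j ≤ 1 := Finset.prod_le_one' fun j hj => h j (Finset.mem_of_mem_erase hj)
  refine le_antisymm (h i hi) ?_
  rw [← hp]
  calc g i * ∏ j ∈ s.erase i, g j ≤ g i * 1 := mul_le_mul' le_rfl h2
    _ = g i := mul_one _

include hζ in
/-- good places: differences of periodic points -/
theorem good_per (hd : 2 ≤ d) (hc : v c ≤ 1) {x y : K} (hx : Per (FF d c) x)
    (hy : Per (FF d c) y) (hne : x ≠ y) {ζ : K} (h : ζ ^ d = 1) (h1 : ζ ≠ 1) :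
    v (x - ζ * y) = 1 := by
  classical
  have hle : ∀ {x y : K}, Pre (FF d c) x → Pre (FF d c) y → ∀ ζ : K, ζ ^ d = 1 →
      v (x - ζ * y) ≤ 1 := by
    intro x y hx hy ζ h
    refine (v.map_sub _ _).trans (max_le (v_le_one v hd hc hx) ?_)
    exact v_le_one v hd hc (pre_root h hy)
  -- the product
  have hpr : ∀ x y : K, v (FF d c x - FF d c y) =
      v (x - y) * ∏ ζ ∈ (nthRootsFinset d (1 : K)).erase 1, v (x - ζ * y) := by
    intro x y
    rw [FF_sub, prod_eq v hζ hd, ← Finset.mul_prod_erase _ (fun ζ => v (x - ζ * y))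
      ((mem_roots' hd).mpr (one_pow d)), one_mul]
  have hQ : ∀ {x y : K}, Pre (FF d c) x → Pre (FF d c) y →
      ∏ ζ ∈ (nthRootsFinset d (1 : K)).erase 1, v (x - ζ * y) ≤ 1 := by
    intro x y hx hy
    apply Finset.prod_le_one'
    intro ζ hζ'
    exact hle hx hy ζ ((mem_roots' hd).mp (Finset.mem_of_mem_erase hζ'))
  have hstep : ∀ {x y : K}, Pre (FF d c) x → Pre (FF d c) y →
      v (FF d c x - FF d c y) ≤ v (x - y) := by
    intro x y hx hy
    rw [hpr]
    calc v (x - y) * _ ≤ v (x - y) * 1 := mul_le_mul' le_rfl (hQ hx hy)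
      _ = v (x - y) := mul_one _
  have hit : ∀ k : ℕ, v ((FF d c)^[k + 1] x - (FF d c)^[k + 1] y) ≤ v (FF d c x - FF d c y) := by
    intro k
    induction k with
    | zero => exact le_rfl
    | succ k ih =>
      rw [Function.iterate_succ_apply' _ (k + 1) x, Function.iterate_succ_apply' _ (k + 1) y]
      exact (hstep (hx.pre.iter _) (hy.pre.iter _)).trans ih
  obtain ⟨n, hn, e1, e2⟩ := common_period hx hy
  have h2 := hit (n - 1)
  rw [Nat.sub_add_cancel hn, e1, e2, hpr] at h2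
  have hxy : v (x - y) ≠ 0 := (Valuation.ne_zero_iff _).mpr (sub_ne_zero.mpr hne)
  have h3 : ∏ ζ ∈ (nthRootsFinset d (1 : K)).erase 1, v (x - ζ * y) = 1 := by
    refine le_antisymm (hQ hx.pre hy.pre) ?_
    have h4 : v (x - y) * 1 ≤ v (x - y) * ∏ ζ ∈ (nthRootsFinset d (1 : K)).erase 1, v (x - ζ * y) := by
      rw [mul_one]; exact h2
    exact (mul_le_mul_iff_right₀ (zero_lt_iff.mpr hxy)).mp h4
  refine all_eq_one _ _ (fun ζ' hζ' => ?_) h3 ζ ?_
  · exact hle hx.pre hy.pre ζ' ((mem_roots' hd).mp (Finset.mem_of_mem_erase hζ'))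
  · exact Finset.mem_erase.mpr ⟨h1, (mem_roots' hd).mpr h⟩

include hζ in
/-- bad places: one step -/
lemma bad_step (hd : 2 ≤ d) (htame : ∀ ζ : K, ζ ^ d = 1 → ζ ≠ 1 → v (1 - ζ) = 1)
    {x y : K} (h : v (x - y) < v y) :
    v (x ^ d - y ^ d) = v y ^ (d - 1) * v (x - y) := by
  classical
  have hpr : v (x ^ d - y ^ d) =
      v (x - y) * ∏ ζ ∈ (nthRootsFinset d (1 : K)).erase 1, v (x - ζ * y) := by
    rw [prod_eq v hζ hd, ← Finset.mul_prod_erase _ (fun ζ => v (x - ζ * y))
      ((mem_roots' hd).mpr (one_pow d)), one_mul]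
  rw [hpr, mul_comm]
  congr 1
  have h2 : ∀ ζ ∈ (nthRootsFinset d (1 : K)).erase 1, v (x - ζ * y) = v y := by
    intro ζ hζ'
    rw [Finset.mem_erase, mem_roots' hd] at hζ'
    have h3 : x - ζ * y = (x - y) + (1 - ζ) * y := by ring
    have h4 : v ((1 - ζ) * y) = v y := by rw [map_mul, htame ζ hζ'.2 hζ'.1, one_mul]
    rw [h3, Valuation.map_add_eq_of_lt_right, h4]
    rw [h4]; exact h
  rw [Finset.prod_congr rfl h2, Finset.prod_const, Finset.card_erase_of_mem
    ((mem_roots' hd).mpr (one_pow d)), hζ.card_nthRootsFinset]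

include hζ in
/-- bad places: differences of never merging points -/
lemma bad_diff (hd : 2 ≤ d) (hc : 1 < v c)
    (htame : ∀ ζ : K, ζ ^ d = 1 → ζ ≠ 1 → v (1 - ζ) = 1) :
    ∀ (n : ℕ) {x y : K}, Pre (FF d c) x → Pre (FF d c) y →
      v ((FF d c)^[n] x - (FF d c)^[n] y) = v ((FF d c)^[n] y) →
      ∃ g, v (x - y) = g ^ (d - 1) * v y := by
  intro n
  induction n with
  | zero =>
    intro x y _ _ h
    simp only [Function.iterate_zero, id] at h
    exact ⟨1, by rw [one_pow, one_mul, h]⟩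
  | succ n ih =>
    intro x y hx hy h
    rw [Function.iterate_succ_apply, Function.iterate_succ_apply] at h
    obtain ⟨g, hg⟩ := ih hx.step hy.step h
    have hxy : v x = v y := v_eq v hd hc hx hy
    have hle : v (x - y) ≤ v y := by
      refine (v.map_sub _ _).trans ?_
      rw [hxy, max_self]
    rcases lt_or_eq_of_le hle with h1 | h1
    · rw [FF_sub, bad_step v hζ hd htame h1, v_eq v hd hc hy.step hy] at hg
      have hy0 : v y ≠ 0 := ne_of_gt (lt_trans zero_lt_one (one_lt_v v hd hc hy))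
      refine ⟨g / v y, ?_⟩
      rw [div_pow]
      field_simp
      rw [mul_comm, hg]
    · exact ⟨1, by rw [one_pow, one_mul, h1]⟩

include hζ in
theorem bad_NM (hd : 2 ≤ d) (hc : 1 < v c)
    (htame : ∀ ζ : K, ζ ^ d = 1 → ζ ≠ 1 → v (1 - ζ) = 1) {x y : K} (hx : Pre (FF d c) x)
    (hy : Pre (FF d c) y) (hn : NM (FF d c) x y) : ∃ g, v (x - y) = g ^ (d - 1) * v y := by
  by_cases hex : ∃ n, v ((FF d c)^[n] x - (FF d c)^[n] y) = v ((FF d c)^[n] y)
  · obtain ⟨n, h⟩ := hex
    exact bad_diff v hζ hd hc htame n hx hy h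
  · exfalso
    push Not at hex
    have hlt : ∀ n, v ((FF d c)^[n] x - (FF d c)^[n] y) < v y := by
      intro n
      have h1 : v ((FF d c)^[n] x) = v y := v_eq v hd hc (hx.iter n) hy
      have h2 : v ((FF d c)^[n] y) = v y := v_eq v hd hc (hy.iter n) hy
      refine lt_of_le_of_ne ?_ (by rw [← h2]; exact hex n)
      refine (v.map_sub _ _).trans ?_
      rw [h1, h2, max_self]
    have hpow : ∀ n, v ((FF d c)^[n] x - (FF d c)^[n] y) = (v y ^ (d - 1)) ^ n * v (x - y) := by
      intro n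
      induction n with
      | zero => simp
      | succ n ih =>
        have h2 : v ((FF d c)^[n] y) = v y := v_eq v hd hc (hy.iter n) hy
        rw [Function.iterate_succ_apply', Function.iterate_succ_apply', FF_sub,
          bad_step v hζ hd htame (by rw [h2]; exact hlt n), h2, ih, pow_succ, ← mul_assoc,
          mul_comm (v y ^ (d - 1))]
    obtain ⟨k, p, hp, e1, e2⟩ := common_pre hx hy
    have h3 := hpow (k + p)
    rw [e1, e2, hpow k] at h3
    have hxy : v (x - y) ≠ 0 := (Valuation.ne_zero_iff _).mpr (sub_ne_zero.mpr (hn 0))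
    have h4 : (v y ^ (d - 1)) ^ k = (v y ^ (d - 1)) ^ (k + p) := mul_right_cancel₀ hxy h3
    have h5 : 1 < v y ^ (d - 1) := one_lt_pow₀ (one_lt_v v hd hc hy) (by omega)
    have h6 : (v y ^ (d - 1)) ^ k < (v y ^ (d - 1)) ^ (k + p) := pow_lt_pow_right₀ h5 (by omega)
    rw [← h4] at h6
    exact lt_irrefl _ h6

include hζ in
/-- bad places: all factors -/
theorem bad_all (hd : 2 ≤ d) (hc : 1 < v c)
    (htame : ∀ ζ : K, ζ ^ d = 1 → ζ ≠ 1 → v (1 - ζ) = 1) {x y : K} (hx : Pre (FF d c) x)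
    (hy : Pre (FF d c) y) (hn : NM (FF d c) x y) {ζ : K} (h : ζ ^ d = 1) :
    ∃ g, v (x - ζ * y) = g ^ (d - 1) * v y := by
  have hFz : FF d c (ζ * y) = FF d c y := by simp only [FF]; rw [mul_pow, h, one_mul]
  have hn' : NM (FF d c) x (ζ * y) := by
    intro n
    match n with
    | 0 =>
      intro h1
      simp only [Function.iterate_zero, id] at h1
      apply hn 1
      rw [Function.iterate_one, h1, hFz]
    | n + 1 =>
      rw [Function.iterate_succ_apply, Function.iterate_succ_apply, hFz]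
      have := hn (n + 1)
      rwa [Function.iterate_succ_apply, Function.iterate_succ_apply] at this
  obtain ⟨g, hg⟩ := bad_NM v hζ hd hc htame hx (pre_root h hy) hn'
  refine ⟨g, ?_⟩
  rw [hg, map_mul, root_v v hd h, one_mul]

end

end Pool.Agent.H422.UC
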