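import Mathlib
import Pool.Agent.H422.UC.Local

/-!
# `x ^ d + c`: finiteness for one parameter
-/

set_option autoImplicit false

open IsDedekindDomain NumberField

namespace Pool.Agent.H422.UC

section arch

lemma arch_step {d : ℕ} (hd : 2 ≤ d) {C X : ℂ} (h : 1 + ‖C‖ < ‖X‖) : ‖X‖ < ‖FF d C X‖ := by
  have h0 : 0 ≤ ‖C‖ := norm_nonneg C
  have h1 : ‖X‖ ^ d - ‖C‖ ≤ ‖FF d C X‖ := by
    rw [FF]
    have := norm_sub_norm_le (X ^ d) (-C)
    rw [norm_neg, sub_neg_eq_add, norm_pow] at this
    exact this
  have h2 : ‖X‖ ^ 2 ≤ ‖X‖ ^ d := pow_le_pow_right₀ (by linarith) hd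
  nlinarith

lemma arch_bound {d : ℕ} (hd : 2 ≤ d) {C X : ℂ} (hX : Pre (FF d C) X) : ‖X‖ ≤ 1 + ‖C‖ := by
  by_contra hcon
  rw [not_le] at hcon
  have key : ∀ n, 1 + ‖C‖ < ‖(FF d C)^[n] X‖ := by
    intro n
    induction n with
    | zero => exact hcon
    | succ n ih =>
      rw [Function.iterate_succ_apply']
      exact ih.trans (arch_step hd ih)
  have mono : StrictMono (fun n : ℕ => ‖(FF d C)^[n] X‖) := by
    apply strictMono_nat_of_lt_succ
    intro n
    rw [Function.iterate_succ_apply']
    exact arch_step hd (key n)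
  obtain ⟨m, n, hmn, he⟩ := hX
  have := mono hmn
  simp only [he] at this
  exact lt_irrefl _ this

end arch

lemma map_iter {K L : Type*} [Field K] [Field L] (φ : K →+* L) (d : ℕ) (c : K) (n : ℕ) (x : K) :
    (FF d (φ c))^[n] (φ x) = φ ((FF d c)^[n] x) := by
  induction n with
  | zero => rfl
  | succ n ih =>
    rw [Function.iterate_succ_apply', Function.iterate_succ_apply', ih]
    simp [FF]

lemma Pre.map {K L : Type*} [Field K] [Field L] (φ : K →+* L) {d : ℕ} {c x : K}
    (h : Pre (FF d c) x) : Pre (FF d (φ c)) (φ x) := by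
  obtain ⟨m, n, hmn, he⟩ := h
  exact ⟨m, n, hmn, by rw [map_iter, map_iter, he]⟩

/-- **Northcott** for `x ^ d + c` -/
theorem northcott (K : Type) [Field K] [NumberField K] {d : ℕ} (hd : 2 ≤ d) (c : K) :
    {x : K | Pre (FF d c) x}.Finite := by
  classical
  obtain ⟨p, q, hq, hpq⟩ := IsFractionRing.div_surjective (A := 𝓞 K) c
  have hq0 : q ≠ 0 := nonZeroDivisors.ne_zero hq
  set a := algebraMap (𝓞 K) K q with ha
  have ha0 : a ≠ 0 := by simpa [ha] using hq0
  set B : ℝ := ∑ φ : K →+* ℂ, ‖φ a‖ * (1 + ‖φ c‖) with hB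
  have hfin := NumberField.Embeddings.finite_of_norm_le K ℂ B
  refine (hfin.preimage (f := fun x => a * x) (mul_right_injective₀ ha0).injOn).subset ?_
  intro x hx
  have hx' : Pre (FF d c) x := hx
  refine ⟨?_, ?_⟩
  · have hint : ∀ v : HeightOneSpectrum (𝓞 K), v.valuation K (a * x) ≤ 1 := by
      intro v
      have va : v.valuation K a ≤ 1 := v.valuation_le_one q
      have vac : v.valuation K (a * c) ≤ 1 := by
        have : a * c = algebraMap (𝓞 K) K p := by
          rw [← hpq]; field_simp
        rw [this]; exact v.valuation_le_one p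
      rcases le_or_gt (v.valuation K x) 1 with h1 | h1
      · rw [map_mul]; exact mul_le_one' va h1
      · have h2 : v.valuation K x ^ d ≤ v.valuation K c := by
          by_contra hcon
          rw [not_le] at hcon
          exact not_escape (v.valuation K) hd hx' ⟨h1, hcon⟩
        have h3 : v.valuation K (a * x) ^ d ≤ 1 := by
          rw [map_mul, mul_pow]
          calc v.valuation K a ^ d * v.valuation K x ^ d
              ≤ v.valuation K a ^ d * v.valuation K c := mul_le_mul' le_rfl h2
            _ = v.valuation K a ^ (d - 1) * v.valuation K (a * c) := by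
                rw [map_mul, ← mul_assoc, ← pow_succ]
                congr 2
                omega
            _ ≤ 1 * 1 := mul_le_mul' (pow_le_one' va _) vac
            _ = 1 := one_mul _
        by_contra hcon
        rw [not_le] at hcon
        exact absurd h3 (not_le.mpr (one_lt_pow₀ hcon (by omega)))
    obtain ⟨y, hy⟩ := HeightOneSpectrum.mem_integers_of_valuation_le_one K (a * x) hint
    change IsIntegral ℤ (a * x)
    rw [← hy]
    exact y.isIntegral_coe
  · intro φ
    have h1 := arch_bound hd (hx'.map φ)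
    calc ‖φ (a * x)‖ = ‖φ a‖ * ‖φ x‖ := by rw [map_mul, norm_mul]
      _ ≤ ‖φ a‖ * (1 + ‖φ c‖) := mul_le_mul_of_nonneg_left h1 (norm_nonneg _)
      _ ≤ B := by
        rw [hB]
        exact Finset.single_le_sum (f := fun φ : K →+* ℂ => ‖φ a‖ * (1 + ‖φ c‖))
          (fun φ _ => by positivity) (Finset.mem_univ φ)

end Pool.Agent.H422.UC
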