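import Mathlib
import Pool.Agent.H422.UC.Tail
import Pool.Agent.H422.UC.North
import Pool.Agent.H422.HE.Pow

/-!
# `x ^ d + c`, `d ≥ 5`: uniform boundedness over a number field
-/

set_option autoImplicit false

open Polynomial IsDedekindDomain NumberField

namespace Pool.Agent.H422.UC

open Pool.Agent.H422.HE

section

variable {K : Type} [Field K] [NumberField K] {d : ℕ} {ζ₀ : K}

/-- the nontrivial roots of unity -/
noncomputable def rts (K : Type) [Field K] (d : ℕ) : Finset K := by
  classical exact (nthRootsFinset d (1 : K)).erase 1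

lemma mem_rts (hd : 2 ≤ d) {ζ : K} : ζ ∈ rts K d ↔ ζ ^ d = 1 ∧ ζ ≠ 1 := by
  classical
  rw [rts, Finset.mem_erase, mem_roots' hd]
  exact and_comm

/-- the bad places -/
def Sbad (K : Type) [Field K] [NumberField K] (d : ℕ) : Set (HeightOneSpectrum (𝓞 K)) :=
  ⋃ ζ ∈ rts K d, {v : HeightOneSpectrum (𝓞 K) | v.valuation K (1 - ζ) ≠ 1}

lemma Sbad_finite (hd : 2 ≤ d) : (Sbad K d).Finite :=
  (rts K d).finite_toSet.biUnion fun ζ hζ =>
    finite_unit _ (sub_ne_zero.mpr ((mem_rts hd).mp hζ).2.symm)

lemma tame_of (hd : 2 ≤ d) {v : HeightOneSpectrum (𝓞 K)} (hv : v ∉ Sbad K d) :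
    ∀ ζ : K, ζ ^ d = 1 → ζ ≠ 1 → v.valuation K (1 - ζ) = 1 := by
  intro ζ h h1
  by_contra hcon
  apply hv
  rw [Sbad]
  simp only [Set.mem_iUnion]
  exact ⟨ζ, (mem_rts hd).mpr ⟨h, h1⟩, hcon⟩

/-- the finite set of ratios -/
def ratios (K : Type) [Field K] [NumberField K] (d : ℕ) : Set K :=
  {t : K | ∀ v ∉ Sbad K d, ∀ r ∈ rts K d, ∀ s ∈ rts K d,
    ∃ g, v.valuation K (t - r) = g ^ (d - 1) * v.valuation K (t - s)}

lemma ratios_finite (hζ : IsPrimitiveRoot ζ₀ d) (hd : 5 ≤ d) : (ratios K d).Finite := by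
  classical
  apply pow_fin_proj K (Sbad_finite (by omega))
  left
  refine ⟨by omega, ?_⟩
  rw [rts, Finset.card_erase_of_mem ((mem_roots' (by omega)).mpr (one_pow d)),
    hζ.card_nthRootsFinset]
  omega

lemma mem_ratios {x y : K} (hy : y ≠ 0) (h : ∀ v ∉ Sbad K d, ∀ r ∈ rts K d, ∀ s ∈ rts K d,
    ∃ g, v.valuation K (x - r * y) = g ^ (d - 1) * v.valuation K (x - s * y)) :
    x / y ∈ ratios K d := by
  intro v hv r hr s hs
  obtain ⟨g, hg⟩ := h v hv r hr s hs
  refine ⟨g, ?_⟩
  have e : ∀ r : K, x / y - r = (x - r * y) / y := by intro r; field_simp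
  rw [e, e, map_div₀, map_div₀, hg, mul_div_assoc]

variable {c : K} (hζ : IsPrimitiveRoot ζ₀ d)

include hζ in
/-- never merging preperiodic pairs which are good at the good places -/
lemma ratio_of (hd : 2 ≤ d) {x y : K} (hx : Pre (FF d c) x) (hy : Pre (FF d c) y) (hy0 : y ≠ 0)
    (hn : NM (FF d c) x y)
    (hgood : ∀ v : HeightOneSpectrum (𝓞 K), v.valuation K c ≤ 1 → ∀ ζ ∈ rts K d,
      v.valuation K (x - ζ * y) = 1) : x / y ∈ ratios K d := by
  apply mem_ratios hy0
  intro v hv r hr s hs
  rcases lt_or_ge 1 (v.valuation K c) with hc | hc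
  · have htame := tame_of hd hv
    obtain ⟨g, hg⟩ := bad_all (v.valuation K) hζ hd hc htame hx hy hn ((mem_rts hd).mp hr).1
    obtain ⟨g', hg'⟩ := bad_all (v.valuation K) hζ hd hc htame hx hy hn ((mem_rts hd).mp hs).1
    have hg0 : g' ≠ 0 := by
      rintro rfl
      rw [zero_pow (by omega), zero_mul, Valuation.zero_iff, sub_eq_zero] at hg'
      apply hn 1
      rw [Function.iterate_one, hg']
      simp only [FF]
      rw [mul_pow, ((mem_rts hd).mp hs).1, one_mul]
    refine ⟨g / g', ?_⟩
    rw [hg, hg', div_pow, ← mul_assoc, div_mul_cancel₀ _ (pow_ne_zero _ hg0)]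
  · exact ⟨1, by rw [hgood v hc r hr, hgood v hc s hs, one_pow, one_mul]⟩

include hζ in
lemma ratio_per (hd : 2 ≤ d) {x y : K} (hx : Per (FF d c) x) (hy : Per (FF d c) y) (hy0 : y ≠ 0)
    (hne : x ≠ y) : x / y ∈ ratios K d := by
  apply ratio_of hζ hd hx.pre hy.pre hy0 (per_NM hx hy hne)
  intro v hc ζ hζ'
  obtain ⟨h1, h2⟩ := (mem_rts hd).mp hζ'
  exact good_per (v.valuation K) hζ hd hc hx hy hne h1 h2

include hζ in
lemma ratio_tail (hd : 2 ≤ d) {w ζ₁ : K} (hw : Per (FF d c) w) (h1 : ζ₁ ^ d = 1)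
    (hnp : ¬ Per (FF d c) (ζ₁ * w)) {k : ℕ} (hk : 1 ≤ k) {x y : K} (hx : Pre (FF d c) x)
    (hy : Per (FF d c) y) (hy0 : y ≠ 0) (e : (FF d c)^[k] x = ζ₁ * w)
    (hyw : (FF d c)^[k] y ≠ w) : x / y ∈ ratios K d := by
  apply ratio_of hζ hd hx hy.pre hy0 (tail_NM hw h1 hnp hy e hyw)
  intro v hc ζ hζ'
  obtain ⟨h2, -⟩ := (mem_rts hd).mp hζ'
  exact (good_tail (v.valuation K) hζ hd hc hw h1 hnp k hx hy e hyw).2 hk ζ h2

include hζ in
lemma ratio_fixed (hd : 2 ≤ d) {z x ζ₁ : K} (hz : FF d c z = z) (hz0 : z ≠ 0) (h1 : ζ₁ ^ d = 1)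
    (hζ1 : ζ₁ ≠ 1) (hx : FF d c x = ζ₁ * z) : x / z ∈ ratios K d := by
  apply mem_ratios hz0
  intro v hv r hr s hs
  exact fixed_tail (v.valuation K) hζ hd (tame_of hd hv) hz hz0 h1 hζ1 hx
    ((mem_rts hd).mp hr).1 ((mem_rts hd).mp hs).1

lemma pow_eq_finite {n : ℕ} (hn : 0 < n) (a : K) : {z : K | z ^ n = a}.Finite := by
  classical
  refine ((X ^ n - C a : K[X]).roots.toFinset.finite_toSet).subset ?_
  intro z hz
  rw [Finset.mem_coe, Multiset.mem_toFinset, mem_roots (monic_X_pow_sub_C a hn.ne').ne_zero,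
    IsRoot.def]
  simp only [eval_sub, eval_pow, eval_X, eval_C]
  rw [sub_eq_zero]; exact hz

/-- the exceptional parameters -/
def exc (K : Type) [Field K] [NumberField K] (d : ℕ) : Set K :=
  {0} ∪ {c : K | c ^ (d - 1) = -1} ∪
    ⋃ t ∈ ratios K d, ⋃ ζ ∈ rts K d, (fun z => z - z ^ d) '' {z : K | z ^ (d - 1) * (t ^ d - 1) = ζ - 1}

lemma exc_finite (hζ : IsPrimitiveRoot ζ₀ d) (hd : 5 ≤ d) : (exc K d).Finite := by
  refine ((Set.finite_singleton 0).union (pow_eq_finite (by omega) _)).union
    ((ratios_finite hζ hd).biUnion fun t _ => (rts K d).finite_toSet.biUnion fun ζ hζ' => ?_)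
  apply Set.Finite.image
  by_cases ht : t ^ d - 1 = 0
  · refine Set.Finite.subset Set.finite_empty ?_
    intro z hz
    rw [Set.mem_ofPred_eq, ht, mul_zero] at hz
    exact ((mem_rts (by omega)).mp hζ').2 (sub_eq_zero.mp hz.symm)
  · refine (pow_eq_finite (n := d - 1) (by omega) ((ζ - 1) / (t ^ d - 1))).subset ?_
    intro z hz
    rw [Set.mem_ofPred_eq] at hz ⊢
    rw [eq_div_iff ht]
    exact hz

include hζ in
/-- Uniform bound in the presence of the roots of unity. -/
theorem bound_aux (hd : 5 ≤ d) : ∃ B : ℕ, ∀ (c : K) (T : Finset K),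
    (∀ x ∈ T, Pre (FF d c) x) → T.card ≤ B := by
  classical
  have hd2 : 2 ≤ d := by omega
  set F := (ratios_finite hζ hd).toFinset with hF
  have hFmem : ∀ {t : K}, t ∈ ratios K d → t ∈ F := fun h => by
    rw [hF, Set.Finite.mem_toFinset]; exact h
  set C0 := (exc_finite hζ hd).toFinset with hC0
  set B0 := ∑ c ∈ C0, (northcott K hd2 c).toFinset.card with hB0
  refine ⟨B0 + (d + F.card) * (1 + F.card), ?_⟩
  intro c T hT
  set O := (northcott K hd2 c).toFinset with hO
  have hTO : T ⊆ O := by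
    intro x hx
    rw [hO, Set.Finite.mem_toFinset]
    exact hT x hx
  refine (Finset.card_le_card hTO).trans ?_
  by_cases hc0 : c ∈ C0
  · have : O.card ≤ B0 :=
      Finset.single_le_sum (f := fun c => (northcott K hd2 c).toFinset.card)
        (fun _ _ => Nat.zero_le _) hc0
    omega
  -- periodic points
  set P := O.filter (fun x => Per (FF d c) x) with hP
  have hPmem : ∀ {x : K}, x ∈ P ↔ Per (FF d c) x := by
    intro x
    rw [hP, Finset.mem_filter, hO, Set.Finite.mem_toFinset]
    exact ⟨fun h => h.2, fun h => ⟨h.pre, h⟩⟩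
  have hPcard : P.card ≤ 1 + F.card := by
    by_cases hex : ∃ y ∈ P, y ≠ 0
    · obtain ⟨y, hy, hy0⟩ := hex
      rw [← Finset.card_erase_add_one hy, Nat.add_comm]
      apply Nat.add_le_add_left
      apply Finset.card_le_card_of_injOn (fun x => x / y)
      · intro x hx
        rw [Finset.mem_coe, Finset.mem_erase] at hx
        exact hFmem (ratio_per hζ hd2 (hPmem.mp hx.2) (hPmem.mp hy) hy0 hx.1)
      · intro a _ b _ hab
        simpa [div_left_inj' hy0] using hab
    · push Not at hex
      have : P ⊆ {0} := by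
        intro y hy
        rw [Finset.mem_singleton]
        exact hex y hy
      have := Finset.card_le_card this
      rw [Finset.card_singleton] at this
      omega
  -- the cover
  have hcover : O ⊆ ((nthRootsFinset d (1 : K)) ×ˢ P).image (fun q => q.1 * q.2) ∪
      (F ×ˢ P).image (fun q => q.1 * q.2) := by
    intro x hx
    have hxp : Pre (FF d c) x := by
      rw [hO, Set.Finite.mem_toFinset] at hx
      exact hx
    rw [Finset.mem_union]
    by_cases h1 : x ∈ ((nthRootsFinset d (1 : K)) ×ˢ P).image (fun q => q.1 * q.2)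
    · exact Or.inl h1
    right
    -- the tail
    have hex := hxp.exists_per
    set j := Nat.find hex with hj
    have hjs : Per (FF d c) ((FF d c)^[j] x) := Nat.find_spec hex
    have hj0 : j ≠ 0 := by
      intro h0
      rw [h0] at hjs
      apply h1
      rw [Finset.mem_image]
      refine ⟨(1, x), Finset.mem_product.mpr ⟨(mem_roots' hd2).mpr (one_pow d), hPmem.mpr hjs⟩, ?_⟩
      simp
    obtain ⟨k, hk⟩ : ∃ k, j = k + 1 := ⟨j - 1, by omega⟩
    have hknot : ¬ Per (FF d c) ((FF d c)^[k] x) := Nat.find_min hex (by omega)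
    rw [hk] at hjs
    obtain ⟨N, hN, hper⟩ := id hjs
    set z := (FF d c)^[k + 1] x with hz
    set w := (FF d c)^[N - 1] z with hw
    have hwP : Per (FF d c) w := hjs.iter _
    have hφw : FF d c w = z := by
      rw [hw, ← Function.iterate_succ_apply' (FF d c), Nat.succ_eq_add_one, Nat.sub_add_cancel hN]
      exact hper
    have hφs : FF d c ((FF d c)^[k] x) = z := by rw [hz, Function.iterate_succ_apply']
    have hpow : ((FF d c)^[k] x) ^ d = w ^ d := by
      have := hφs.trans hφw.symm
      simp only [FF] at this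
      exact add_right_cancel this
    have hw0 : w ≠ 0 := by
      intro h0
      rw [h0, zero_pow (by omega)] at hpow
      have : (FF d c)^[k] x = 0 := pow_eq_zero_iff (by omega) |>.mp hpow
      apply hknot
      rw [this, ← h0]
      exact hwP
    set ζ₁ := (FF d c)^[k] x / w with hζ₁
    have e1 : (FF d c)^[k] x = ζ₁ * w := by rw [hζ₁]; field_simp
    have hζ₁d : ζ₁ ^ d = 1 := by
      rw [hζ₁, div_pow, hpow, div_self (pow_ne_zero _ hw0)]
    have hζ₁1 : ζ₁ ≠ 1 := by
      intro h
      rw [h, one_mul] at e1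
      apply hknot
      rw [e1]; exact hwP
    have hk1 : 1 ≤ k := by
      by_contra hcon
      have hk0 : k = 0 := by omega
      apply h1
      rw [Finset.mem_image]
      refine ⟨(ζ₁, w), Finset.mem_product.mpr ⟨(mem_roots' hd2).mpr hζ₁d, hPmem.mpr hwP⟩, ?_⟩
      rw [hk0] at e1
      exact e1.symm
    have hnp : ¬ Per (FF d c) (ζ₁ * w) := by rw [← e1]; exact hknot
    by_cases hy : ∃ y ∈ P, y ≠ 0 ∧ (FF d c)^[k] y ≠ w
    · obtain ⟨y, hy, hy0, hyw⟩ := hy
      rw [Finset.mem_image]
      refine ⟨(x / y, y), Finset.mem_product.mpr ⟨hFmem ?_, hy⟩, ?_⟩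
      · exact ratio_tail hζ hd2 hwP hζ₁d hnp hk1 hxp (hPmem.mp hy) hy0 e1 hyw
      · simp only
        rw [div_mul_cancel₀ _ hy0]
    · exfalso
      push Not at hy
      have hww : (FF d c)^[k] w = w := hy w (hPmem.mpr hwP) hw0
      have huniq : ∀ y : K, Per (FF d c) y → y ≠ 0 → y = w := by
        intro y hyp hy0
        exact per_inj hyp hwP ((hy y (hPmem.mpr hyp) hy0).trans hww.symm)
      apply hc0
      rw [hC0, Set.Finite.mem_toFinset]
      by_cases hfw : FF d c w = 0
      · have h0 : Per (FF d c) (0 : K) := by rw [← hfw]; exact hwP.step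
        have hcp : Per (FF d c) c := by
          have := h0.step
          simp only [FF, zero_pow (show d ≠ 0 by omega), zero_add] at this
          exact this
        by_cases hcz : c = 0
        · left; left; exact hcz
        · left; right
          have hcw := huniq c hcp hcz
          rw [Set.mem_ofPred_eq]
          have h2 : c * (c ^ (d - 1) + 1) = 0 := by
            have h3 : c ^ d + c = 0 := by
              have := hfw
              rw [← hcw] at this
              exact this
            have h4 : c ^ d = c * c ^ (d - 1) := by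
              rw [← pow_succ']; congr 1; omega
            rw [← h3, h4]; ring
          rcases mul_eq_zero.mp h2 with h3 | h3
          · exact absurd h3 hcz
          · linear_combination h3
      · have hfix : FF d c w = w := huniq _ hwP.step hfw
        right
        simp only [Set.mem_iUnion]
        have hx' : FF d c ((FF d c)^[k - 1] x) = ζ₁ * w := by
          rw [← Function.iterate_succ_apply' (FF d c), Nat.succ_eq_add_one, Nat.sub_add_cancel hk1]
          exact e1
        refine ⟨(FF d c)^[k - 1] x / w, ratio_fixed hζ hd2 hfix hw0 hζ₁d hζ₁1 hx', ζ₁,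
          (mem_rts hd2).mpr ⟨hζ₁d, hζ₁1⟩, w, ?_, ?_⟩
        · rw [Set.mem_ofPred_eq]
          have h2 : ((FF d c)^[k - 1] x) ^ d - w ^ d = (ζ₁ - 1) * w := by
            rw [← FF_sub (c := c), hx', hfix]; ring
          apply mul_right_cancel₀ hw0
          rw [← h2, div_pow]
          have h4 : w ^ d = w ^ (d - 1) * w := by
            rw [← pow_succ]; congr 1; omega
          have h5 : w ^ (d - 1) ≠ 0 := pow_ne_zero _ hw0
          rw [h4]
          field_simp
        · simp only [FF] at hfix ⊢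
          linear_combination -hfix
  refine (Finset.card_le_card hcover).trans ((Finset.card_union_le _ _).trans ?_)
  have h1 : (((nthRootsFinset d (1 : K)) ×ˢ P).image (fun q => q.1 * q.2)).card ≤ d * P.card := by
    refine Finset.card_image_le.trans ?_
    rw [Finset.card_product, hζ.card_nthRootsFinset]
  have h2 : ((F ×ˢ P).image (fun q => q.1 * q.2)).card ≤ F.card * P.card := by
    refine Finset.card_image_le.trans ?_
    rw [Finset.card_product]
  calc _ ≤ d * P.card + F.card * P.card := Nat.add_le_add h1 h2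
    _ = (d + F.card) * P.card := by ring
    _ ≤ (d + F.card) * (1 + F.card) := Nat.mul_le_mul_left _ hPcard
    _ ≤ _ := Nat.le_add_left _ _

end

/-- **Uniform boundedness for unicritical polynomials of degree at least five over number fields.** -/
theorem uniform_bound (K : Type) [Field K] [NumberField K] {d : ℕ} (hd : 5 ≤ d) :
    ∃ B : ℕ, ∀ (c : K) (T : Finset K), (∀ x ∈ T, Pre (FF d c) x) → T.card ≤ B := by
  classical
  have : NeZero d := ⟨by omega⟩
  have : NeZero ((d : ℕ) : K) := ⟨Nat.cast_ne_zero.mpr (by omega)⟩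
  obtain ⟨B, hB⟩ := bound_aux (K := CyclotomicField d K) (IsCyclotomicExtension.zeta_spec d K _) hd
  refine ⟨B, fun c T hT => ?_⟩
  have h1 := hB (algebraMap K (CyclotomicField d K) c) (T.image (algebraMap K (CyclotomicField d K)))
    (by
      intro x hx
      obtain ⟨y, hy, rfl⟩ := Finset.mem_image.mp hx
      exact (hT y hy).map _)
  rwa [Finset.card_image_of_injective _ (algebraMap K (CyclotomicField d K)).injective] at h1

end Pool.Agent.H422.UC
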