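import Mathlib
import Pool.Agent.H422.UC.Global

/-!
# `x ^ d + c`, `d ≥ 5`: almost all parameters
-/

set_option autoImplicit false

open Polynomial IsDedekindDomain NumberField

namespace Pool.Agent.H422.UC

open Pool.Agent.H422.HE

section

variable {K : Type} [Field K] [NumberField K] {d : ℕ} {ζ₀ : K}

/-- ratios, with `0` and `1` -/
def ratios' (K : Type) [Field K] [NumberField K] (d : ℕ) : Set K := ratios K d ∪ {0, 1}

/-- the exceptional parameters -/
def exc' (K : Type) [Field K] [NumberField K] (d : ℕ) : Set K :=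
  exc K d ∪ ⋃ s ∈ ratios' K d, ⋃ s' ∈ ratios' K d, ⋃ t ∈ {t ∈ ratios K d | t ^ d ≠ 1},
    (fun z => s * z - z ^ d) '' {z : K | z ^ (d - 1) = (s' - s) / (t ^ d - 1)}

lemma exc'_finite (hζ : IsPrimitiveRoot ζ₀ d) (hd : 5 ≤ d) : (exc' K d).Finite := by
  have h1 := ratios_finite hζ hd
  have h2 : (ratios' K d).Finite := h1.union (by simp)
  refine (exc_finite hζ hd).union (h2.biUnion fun s _ => h2.biUnion fun s' _ =>
    (h1.subset fun t ht => ht.1).biUnion fun t _ => (pow_eq_finite (by omega) _).image _)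

variable (hζ : IsPrimitiveRoot ζ₀ d)

include hζ in
/-- Two distinct nonzero periodic points: exceptional parameter. -/
lemma exc_of_two (hd : 2 ≤ d) {c x y : K} (hx : Per (FF d c) x) (hy : Per (FF d c) y)
    (hy0 : y ≠ 0) (hne : x ≠ y) : c ∈ exc' K d := by
  have key : ∀ {z : K}, Per (FF d c) z → z / y ∈ ratios' K d := by
    intro z hz
    by_cases h : z = y
    · right; right; rw [h, div_self hy0]; rfl
    · left; exact ratio_per hζ hd hz hy hy0 h
  have hpow : x ^ d ≠ y ^ d := by
    intro h
    apply hne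
    apply per_inj (k := 1) hx hy
    simp only [Function.iterate_one, FF]
    rw [h]
  right
  simp only [Set.mem_iUnion]
  have hty : x / y * y = x := div_mul_cancel₀ _ hy0
  refine ⟨FF d c y / y, key hy.step, FF d c x / y, key hx.step, x / y,
    ⟨ratio_per hζ hd hx hy hy0 hne, ?_⟩, y, ?_, ?_⟩
  · rw [div_pow, Ne, div_eq_one_iff_eq (pow_ne_zero _ hy0)]
    exact hpow
  · rw [Set.mem_ofPred_eq, ← sub_div, FF_sub, eq_div_iff (by
      rw [div_pow, sub_ne_zero, Ne, div_eq_one_iff_eq (pow_ne_zero _ hy0)]; exact hpow)]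
    have h4 : y ^ d = y ^ (d - 1) * y := by rw [← pow_succ]; congr 1; omega
    have h5 : y ^ (d - 1) ≠ 0 := pow_ne_zero _ hy0
    rw [div_pow, h4]
    field_simp
  · simp only [FF]
    field_simp
    ring

include hζ in
/-- Outside the exceptional set all preperiodic points have the same `d`-th power. -/
theorem pow_eq_of_not_exc (hd : 5 ≤ d) {c : K} (hc : c ∉ exc' K d) {x y : K}
    (hx : Pre (FF d c) x) (hy : Pre (FF d c) y) : x ^ d = y ^ d := by
  have hd2 : 2 ≤ d := by omega
  have hc0 : c ∉ exc K d := fun h => hc (Or.inl h)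
  have hcz : c ≠ 0 := by
    rintro rfl
    apply hc0
    left; left; rfl
  -- there is a nonzero periodic point
  have hper : ∀ {z : K}, Per (FF d c) z → z ≠ 0 → FF d c z = z := by
    intro z hz hz0
    by_contra hne
    exact hc (exc_of_two hζ hd2 hz.step hz hz0 hne)
  have hzero : ¬ Per (FF d c) (0 : K) := by
    intro h0
    have hcp : Per (FF d c) c := by
      have := h0.step
      simp only [FF, zero_pow (show d ≠ 0 by omega), zero_add] at this
      exact this
    have h1 := hper hcp hcz
    have h2 : FF d c 0 = c := by simp [FF, zero_pow (show d ≠ 0 by omega)]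
    exact hcz (per_inj (k := 1) hcp h0 (by rw [Function.iterate_one, h1, h2]))
  have main : ∀ {x : K}, Pre (FF d c) x → ∃ z, FF d c z = z ∧ z ≠ 0 ∧ x ^ d = z ^ d := by
    intro x hx
    obtain ⟨k0, hk0⟩ := hx.exists_per
    have hz0 : (FF d c)^[k0] x ≠ 0 := fun h => hzero (h ▸ hk0)
    set z := (FF d c)^[k0] x with hz
    have hfz : FF d c z = z := hper hk0 hz0
    have hzp : Per (FF d c) z := hk0
    refine ⟨z, hfz, hz0, ?_⟩
    by_contra hpow
    -- the last point of the orbit which is not `z`
    have hex : ∃ j, (FF d c)^[j] x = z := ⟨k0, rfl⟩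
    classical
    set j := Nat.find hex with hj
    have hjs : (FF d c)^[j] x = z := Nat.find_spec hex
    have hj0 : j ≠ 0 := by
      intro h0
      rw [h0] at hjs
      simp only [Function.iterate_zero, id] at hjs
      exact hpow (by rw [hjs])
    obtain ⟨k, hk⟩ : ∃ k, j = k + 1 := ⟨j - 1, by omega⟩
    have hknot : (FF d c)^[k] x ≠ z := Nat.find_min hex (by omega)
    rw [hk, Function.iterate_succ_apply'] at hjs
    have hpow' : ((FF d c)^[k] x) ^ d = z ^ d := by
      have h1 := hjs.trans hfz.symm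
      simp only [FF] at h1
      exact add_right_cancel h1
    have hk1 : 1 ≤ k := by
      by_contra hcon
      have : k = 0 := by omega
      rw [this] at hpow'
      exact hpow hpow'
    set ζ₁ := (FF d c)^[k] x / z with hζ₁
    have e1 : (FF d c)^[k] x = ζ₁ * z := by rw [hζ₁]; field_simp
    have hζ₁d : ζ₁ ^ d = 1 := by
      rw [hζ₁, div_pow, hpow', div_self (pow_ne_zero _ hz0)]
    have hζ₁1 : ζ₁ ≠ 1 := by
      intro h
      rw [h, one_mul] at e1
      exact hknot e1
    have hx' : FF d c ((FF d c)^[k - 1] x) = ζ₁ * z := by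
      rw [← Function.iterate_succ_apply' (FF d c), Nat.succ_eq_add_one, Nat.sub_add_cancel hk1]
      exact e1
    apply hc0
    right
    simp only [Set.mem_iUnion]
    refine ⟨(FF d c)^[k - 1] x / z, ratio_fixed hζ hd2 hfz hz0 hζ₁d hζ₁1 hx', ζ₁,
      (mem_rts hd2).mpr ⟨hζ₁d, hζ₁1⟩, z, ?_, ?_⟩
    · rw [Set.mem_ofPred_eq]
      have h2 : ((FF d c)^[k - 1] x) ^ d - z ^ d = (ζ₁ - 1) * z := by
        rw [← FF_sub (c := c), hx', hfz]; ring
      apply mul_right_cancel₀ hz0
      rw [← h2, div_pow]
      have h4 : z ^ d = z ^ (d - 1) * z := by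
        rw [← pow_succ]; congr 1; omega
      have h5 : z ^ (d - 1) ≠ 0 := pow_ne_zero _ hz0
      rw [h4]
      field_simp
    · simp only [FF] at hfz ⊢
      linear_combination -hfz
  obtain ⟨z, hz, hz0, h1⟩ := main hx
  obtain ⟨w, hw, hw0, h2⟩ := main hy
  rw [h1, h2]
  by_cases hzw : z = w
  · rw [hzw]
  · exfalso
    have pz : Per (FF d c) z := ⟨1, one_pos, hz⟩
    have pw : Per (FF d c) w := ⟨1, one_pos, hw⟩
    exact hc (exc_of_two hζ hd2 pz pw hw0 hzw)

end

/-- **Almost all unicritical polynomials of degree `d ≥ 5` over a number field `K` have at most one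
`K`-rational preperiodic point up to `d`-th roots of unity.** -/
theorem finite_exceptional (K : Type) [Field K] [NumberField K] {d : ℕ} (hd : 5 ≤ d) :
    {c : K | ∃ x y : K, Pre (FF d c) x ∧ Pre (FF d c) y ∧ x ^ d ≠ y ^ d}.Finite := by
  classical
  have : NeZero d := ⟨by omega⟩
  have : NeZero ((d : ℕ) : K) := ⟨Nat.cast_ne_zero.mpr (by omega)⟩
  have hζ := IsCyclotomicExtension.zeta_spec d K (CyclotomicField d K)
  refine ((exc'_finite hζ hd).preimage (f := algebraMap K (CyclotomicField d K))
    (algebraMap K (CyclotomicField d K)).injective.injOn).subset ?_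
  rintro c ⟨x, y, hx, hy, hxy⟩
  by_contra hc
  apply hxy
  apply (algebraMap K (CyclotomicField d K)).injective
  rw [RingHom.map_pow, RingHom.map_pow]
  exact pow_eq_of_not_exc hζ hd hc (hx.map _) (hy.map _)

end Pool.Agent.H422.UC
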